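import Mathlib

set_option autoImplicit false

open Filter Topology Set

namespace Pool.Agent.TH289

/-- `x` and `y` are forward asymptotic under `f`: the pairs `(fⁿ x, fⁿ y)` converge to the
diagonal as `n → ∞`.  (`{y | Asym f x y}` is the stable set of `x`, and `{y | Asym f.symm x y}` its
unstable set.) -/
def Asym {M : Type*} [TopologicalSpace M] (f : M → M) (x y : M) : Prop :=
  Tendsto (fun n : ℕ => (f^[n] x, f^[n] y)) atTop (𝓝ˢ (diagonal M))

/-- For a periodic point `p`: the unstable set of some point `fᵐ p` of the orbit of `p` meets the
stable set of `q`. -/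
def Hetero {M : Type*} [TopologicalSpace M] (f : M ≃ₜ M) (p q : M) : Prop :=
  ∃ (m : ℕ) (z : M), Asym f.symm (f^[m] p) z ∧ Asym f q z

/-- The periodic points `p` and `q` are homoclinically related: the unstable set of the orbit of
`p` meets the stable set of `q`, and the unstable set of the orbit of `q` meets the stable set of
`p`. -/
def HomRel {M : Type*} [TopologicalSpace M] (f : M ≃ₜ M) (p q : M) : Prop :=
  Hetero f p q ∧ Hetero f q p

/-- `h` takes different values at different homoclinically related periodic points of `f` in
`L`. -/
def Separates {M M' : Type*} [TopologicalSpace M] (f : M ≃ₜ M) (h : M → M') (L : Set M) : Prop :=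
  ∀ p ∈ L, ∀ q ∈ L, p ∈ Function.periodicPts f → q ∈ Function.periodicPts f →
    HomRel f p q → h p = h q → p = q

/-- `L` is a nonempty closed `f`-invariant set that contains the unstable set of each of its
points. -/
structure UnstSat {M : Type*} [TopologicalSpace M] (f : M ≃ₜ M) (L : Set M) : Prop where
  closed : IsClosed L
  nonempty : L.Nonempty
  inv : ∀ x, f x ∈ L ↔ x ∈ L
  sat : ∀ x ∈ L, ∀ y, Asym f.symm x y → y ∈ L

end Pool.Agent.TH289
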